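import Pool.Agent.Q214.NST.Count

/-!
# Semigroups with exactly `n` Polish semigroup topologies, for every finite `n ≥ 1`

The semigroup consists of the permutations of `ℕ` and of the constant maps with values in
`ℕ ∪ {∞₁, …, ∞ₖ}` (the points `∞ⱼ` are fixed by the permutations), with composition. In every
Polish semigroup topology the constants with values in `ℕ` are isolated, the permutations form an
open and closed subset with the topology of pointwise convergence (automatic continuity), and the
trace on `ℕ` of the neighbourhoods of `∞ⱼ` is a filter invariant under all permutations, so it is
improper or the cofinite filter. The latter happens for at most one `j`.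
-/

open Cardinal

namespace Pool.Agent.Results.MP_67072b_lc.EveryFiniteNumber

/-- `N(S)`: the cardinal number of the topologies on the semigroup `S` which are Polish and for
which the multiplication is (jointly) continuous. -/
noncomputable def numTopologies (S : Type) [Semigroup S] : Cardinal :=
  #{τ : TopologicalSpace S // @PolishSpace S τ ∧ @ContinuousMul S τ _}

/-- For every finite number `n ≥ 1` there is a semigroup with exactly `n` Polish semigroup
topologies. -/
theorem result (n : ℕ) (hn : 1 ≤ n) : ∃ (S : Type) (_ : Semigroup S), numTopologies S = n := by
  refine ⟨Q214.NST.S (n - 1), inferInstance, ?_⟩
  have h := Q214.NST.card_topologies (n - 1)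
  rw [Nat.sub_add_cancel hn] at h
  exact h

end Pool.Agent.Results.MP_67072b_lc.EveryFiniteNumber
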